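import Pool.Agent.H252Z.Mirror.Counter

set_option autoImplicit false

open Pool.Agent.H252Z.Mirror

namespace Pool.Agent.Results.MP_3570a5_nt.ANegativeCoeff

/-- There are Fano data satisfying the standing assumptions (with pairwise distinct non-zero
vectors), an index `a = (i, j)` and `k ∈ K₀` such that the coefficient of `z^k` in
`φ_{ij} / φ₀` is negative. -/
theorem result :
    ∃ (d p : ℕ) (q : Fin p → ℕ) (v : Idx q → Fin d → ℤ),
      1 ≤ d ∧ 1 ≤ p ∧ (∀ i, 1 ≤ q i) ∧ Function.Injective v ∧ (∀ a, v a ≠ 0) ∧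
      Standing v ∧ Fano v ∧
      ∃ (a : Idx q) (k : Idx q →₀ ℕ), InK0 v k ∧
        MvPowerSeries.coeff k (phi v a * (phi0 v)⁻¹) < 0 :=
  ⟨4, 4, fun _ => 2, exV, by norm_num, by norm_num, fun _ => by norm_num, ex_inj, ex_ne,
    ⟨ex_interior, ex_span⟩, ex_fano, ⟨2, 1⟩, exK 1 1, exK_in 1 1, by rw [ex_coeff]; norm_num⟩

end Pool.Agent.Results.MP_3570a5_nt.ANegativeCoeff
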